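import Mathlib
import Pool.Agent.H32.CoSob

open Set Filter Topology TopologicalSpace

namespace Pool.Agent.Results.MP_1ae613_gt.KernelFails

/-- Compact saturated sets. -/
def KS {X : Type} [TopologicalSpace X] (K : Set X) : Prop :=
  IsCompact K ∧ K = ⋂₀ {U | IsOpen U ∧ K ⊆ U}

/-- `k`-irreducible sets. -/
def KIrr {X : Type} [TopologicalSpace X] (G : Set X) : Prop :=
  G.Nonempty ∧ KS G ∧ ∀ K₁ K₂, KS K₁ → KS K₂ → K₁ ∪ K₂ = G → K₁ = G ∨ K₂ = G

/-- Co-sober spaces: `T₀`, and each `k`-irreducible set is `↑x = {y | x ∈ cl {y}}`. -/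
def CoSober (X : Type) [TopologicalSpace X] : Prop :=
  T0Space X ∧ ∀ G : Set X, KIrr G → ∃ x, G = {y | x ∈ closure {y}}

open Pool.Agent.H32.CoSob

@[ext] structure X where
  fst : M
  snd : ℕ

def low (y : M) (n : ℕ) : Set X := {z | z.1 = y ∧ z.2 ≤ n}

instance : TopologicalSpace X :=
  induced X.fst τs ⊓ generateFrom {O | ∃ y n, O = (low y n)ᶜ}

lemma le_X {f : Filter X} {x : X} : f ≤ 𝓝 x ↔ map X.fst f ≤ @nhds M τs x.1 ∧
    ∀ y n, x ∉ low y n → (low y n)ᶜ ∈ f := by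
  have e := nhds_inf (t₁ := induced X.fst τs) (t₂ := generateFrom {O | ∃ y n, O = (low y n)ᶜ})
    (a := x)
  refine (iff_of_eq (congrArg (f ≤ ·) e)).trans ?_
  rw [le_inf_iff, @nhds_induced M X τs, ← map_le_iff_le_comap]
  refine and_congr Iff.rfl ((tendsto_nhds_generateFrom_iff (m := id)).trans ⟨fun h y n hx =>
    h _ ⟨y, n, rfl⟩ hx, ?_⟩)
  rintro h _ ⟨y, n, rfl⟩ hx
  exact h y n hx

lemma spec {x z : X} : x ∈ closure {z} ↔ z.1 = x.1 ∧ x.2 ≤ z.2 := by
  rw [← specializes_iff_mem_closure, specializes_iff_pure, le_X]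
  constructor
  · rintro ⟨h1, h2⟩
    rw [Filter.map_pure, nhds_iInf] at h1
    have e : z.1 = x.1 := by_contra fun hne =>
      le_τ.1 (h1.trans (iInf_le _ z.1)) {z.1}ᶜ (Or.inl ⟨_, rfl⟩) (Ne.symm hne) rfl
    refine ⟨e, by_contra fun hn => h2 z.1 z.2 (fun h => hn h.2) ⟨rfl, le_rfl⟩⟩
  · rintro ⟨h1, h2⟩
    refine ⟨by rw [Filter.map_pure, h1]; exact @pure_le_nhds M τs _, fun y n hx hz => ?_⟩
    exact hx ⟨h1 ▸ hz.1, h2.trans hz.2⟩

lemma cfst : @Continuous X M _ τs X.fst := continuous_iff_le_induced.2 inf_le_left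

lemma cpt {K : Set X} (h : @IsCompact M τs (X.fst '' K)) : IsCompact K := by
  refine isCompact_iff_ultrafilter_le_nhds.2 fun U hU => ?_
  rcases U.le_cofinite_or_eq_pure with hc | ⟨a, rfl⟩
  · obtain ⟨_, ⟨x, hx, rfl⟩, hle⟩ := (@isCompact_iff_ultrafilter_le_nhds M τs _).1 h (U.map X.fst)
      (le_principal_iff.2 (image_mem_map (le_principal_iff.1 hU)))
    refine ⟨x, hx, le_X.2 ⟨hle, fun y n _ => hc (Finite.compl_mem_cofinite ?_)⟩⟩
    refine ((finite_Iic n).image fun m => (⟨y, m⟩ : X)).subset fun z hz => ⟨z.2, hz.2, ?_⟩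
    exact X.ext hz.1.symm rfl
  · exact ⟨a, le_principal_iff.1 hU, pure_le_nhds a⟩

def k (x : X) : X := ⟨x.1, 0⟩

lemma cinc : @Continuous M X τs _ fun y => ⟨y, 0⟩ := by
  refine continuous_inf_rng.2 ⟨(continuous_induced_rng (t₂ := τs) (t₁ := τs) (f := X.fst)
    (g := fun y => ⟨y, 0⟩)).2 (@continuous_id M τs),
    continuous_generateFrom_iff.2 ?_⟩
  rintro _ ⟨y, n, rfl⟩
  have : (fun y : M => (⟨y, 0⟩ : X)) ⁻¹' (low y n)ᶜ = {y}ᶜ := by ext z; simp [low]
  rw [this]
  exact IsOpen.mono (t₂ := τ y) (isOpen_generateFrom_of_mem (Or.inl ⟨y, rfl⟩)) (iInf_le _ y)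

theorem result : ∃ (X : Type) (_ : TopologicalSpace X) (k : X → X), CoSober X ∧ Continuous k ∧
    (∀ x, k x ∈ closure {x}) ∧ k ∘ k = k ∧ ¬ CoSober (range k) := by
  refine ⟨X, inferInstance, k, ⟨⟨fun x z h => ?_⟩, fun G hG => ?_⟩,
    @Continuous.comp X M X _ τs _ _ _ cinc cfst, fun x => spec.2 ⟨rfl, Nat.zero_le _⟩, rfl,
    fun h => ?_⟩
  · have h1 := spec.1 h.specializes.mem_closure
    have h2 := spec.1 h.specializes'.mem_closure
    exact X.ext h1.1 (le_antisymm h2.2 h1.2)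
  · classical
    obtain ⟨⟨a, ha⟩, ⟨hc, hs⟩, hG⟩ := hG
    rw [sat_iff] at hs
    have ex : ∃ n, (⟨a.1, n⟩ : X) ∈ G := ⟨a.2, ha⟩
    let x : X := ⟨a.1, Nat.find ex⟩
    have hx : x ∈ G := Nat.find_spec ex
    refine ⟨x, ((hG (G \ {x}) {y | x ∈ closure {y}} ⟨cpt ?_, (sat_iff _).2 ?_⟩
      ⟨cpt ?_, (sat_iff _).2 ?_⟩ ?_).resolve_left fun h => (h.ge hx).2 rfl).symm⟩
    · have : X.fst '' (G \ {x}) = X.fst '' G := by
        refine Subset.antisymm (image_mono sdiff_subset) ?_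
        rintro _ ⟨z, hz, rfl⟩
        refine ⟨⟨z.1, z.2 + x.2 + 1⟩, ⟨hs z hz _ (spec.2 ⟨rfl, ?_⟩), fun e => ?_⟩, rfl⟩
        · simp only; omega
        · have := congrArg X.snd e
          simp only at this; omega
      rw [this]
      exact @IsCompact.image X M _ τs _ _ hc cfst
    · intro z hz y hy
      refine ⟨hs z hz.1 y hy, fun e => hz.2 ?_⟩
      rw [mem_singleton_iff] at e
      subst e
      obtain ⟨h1, h2⟩ := spec.1 hy
      have h3 : (⟨a.1, z.2⟩ : X) ∈ G := by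
        have : z = (⟨a.1, z.2⟩ : X) := X.ext h1.symm rfl
        exact this ▸ hz.1
      exact X.ext h1.symm (le_antisymm h2 (Nat.find_min' ex h3))
    · refine @Set.Subsingleton.isCompact M τs _ ?_
      rintro _ ⟨z, hz, rfl⟩ _ ⟨w, hw, rfl⟩
      exact (spec.1 hz).1.trans (spec.1 hw).1.symm
    · intro z hz y hy
      exact spec.2 ⟨(spec.1 hy).1.trans (spec.1 hz).1, (spec.1 hz).2.trans (spec.1 hy).2⟩
    · refine Subset.antisymm (union_subset sdiff_subset fun y hy => hs x hx y hy) fun z hz => ?_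
      by_cases e : z = x
      · exact Or.inr (e ▸ subset_closure rfl)
      · exact Or.inl ⟨hz, e⟩
  · let e : M → range k := fun y => ⟨⟨y, 0⟩, ⟨y, 0⟩, rfl⟩
    have ce : @Continuous M (range k) τs _ e := @Continuous.subtype_mk X M _ τs _ _ cinc _
    let g : range k → M := fun z => z.1.1
    have cg : @Continuous (range k) M _ τs g :=
      @Continuous.comp _ X M _ _ τs _ _ cfst continuous_subtype_val
    have eg : ∀ z, e (g z) = z := by rintro ⟨_, z, rfl⟩; rfl
    have ig : Function.Injective g := Function.LeftInverse.injective eg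
    have top : ∀ K : Set (range k), g '' K = univ → K = univ := fun K hK =>
      eq_univ_of_forall fun z => by
        obtain ⟨w, hw, h⟩ := eq_univ_iff_forall.1 hK (g z)
        exact ig h ▸ hw
    obtain ⟨x, hx⟩ := h.2 univ ⟨⟨e fun _ => true, trivial⟩, ⟨by
      have := @IsCompact.image M _ τs _ _ e cpt_univ ce
      rwa [image_univ, (Function.RightInverse.surjective eg).range_eq] at this,
      (sat_iff _).2 fun _ _ _ _ => trivial⟩, fun K L hK hL h => (irr
        (@IsCompact.image _ M _ τs _ g hK.1 cg) (@IsCompact.image _ M _ τs _ g hL.1 cg) (by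
          rw [← image_union, h]
          exact eq_univ_of_forall fun y => ⟨e y, trivial, rfl⟩)).imp (top K) (top L)⟩
    have : ∀ y, y = x.1.1 := fun y => by
      have h1 : x ∈ closure {e y} := eq_univ_iff_forall.1 hx.symm (e y)
      rw [closure_subtype, image_singleton] at h1
      exact (spec.1 h1).1
    have := congrFun ((this fun _ => true).trans (this fun _ => false).symm) 0
    simp at this

end Pool.Agent.Results.MP_1ae613_gt.KernelFails
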